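import Pool.Agent.R557.AD.Few

/-!
# Correlations of the divisor functions with a power saving, for almost all shifts in automatic sets

Definitions used: from the starting file `Pool.Agent.Results.MP_122e00_nt.PowerSavingShifts`: the divisor functions `d`,
the sums `D`, the Ramanujan sums `ram`, the densities `κ`, the singular series `𝔖`, `Density`, `G`, `main`; from Mathlib:
deterministic finite automata `DFA` (with finitely many states here).
-/

set_option autoImplicit false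

namespace Pool.Agent.Results.MP_122e00_nt.AutomaticShifts

open Finset Polynomial
open Pool.Agent.Results.MP_122e00_nt.PowerSavingShifts (D ram κ 𝔖 Density G main)

/-- For ALL `x ≤ N`: `D_r(x; h)` is the main term up to `N ^ (1 - θ)` and, if `|h| ≤ N ^ (1 - η)`, it is `x T_h(log x)` up
to `N ^ (1 - θ) + N ^ (1 - η / 5)`. -/
def Asymp (r N : ℕ) (P : ℕ → ℝ[X]) (T : ℤ → ℝ[X]) (θ η : ℝ) (h : ℤ) : Prop := ∀ x : ℕ, x ≤ N →
  |D r x h - main P x h| ≤ (N : ℝ) ^ (1 - θ) ∧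
    ((|h| : ℝ) ≤ (N : ℝ) ^ (1 - η) → |D r x h - x * (T h).eval (Real.log x)| ≤ (N : ℝ) ^ (1 - θ) + (N : ℝ) ^ (1 - η / 5))

open Classical in
/-- The number of the integers `0 ≤ v < m` with the property `E` whose digits in base `b` (lowest first; the empty word for
`v = 0`) are accepted by the automaton `M`. -/
noncomputable def num (b : ℕ) {σ : Type} (M : DFA ℕ σ) (m : ℕ) (E : ℕ → Prop) : ℕ :=
  ((range m).filter fun v : ℕ => Nat.digits b v ∈ M.accepts ∧ E v).card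

/-- **Divisor correlations with a power saving for almost all shifts in automatic sets.** Let `r ≥ 2`. There are
polynomials `P_q` (`q ≥ 1`) and `T_h` (`h ≠ 0`) with the following properties.

(0) As in the starting files: `P_q` is the density of `d_r(n) e(b n / q)`, `(b, q) = 1`, with a power saving; for `h ≠ 0` the
series `G_h(u, v) = ∑ c_q(h) P_q(u) P_q(v)` satisfies `T_h(u) + T_h'(u) = G_h(u, u)`, and `T_h` has degree `2 r - 2` and
leading coefficient `𝔖_r(h) / ((r - 1)!) ^ 2`.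

(1) Let `b ≥ 2` and let `S` be the set of the integers whose digits in base `b` are accepted by a finite automaton. Suppose
that the number `S(m)` of the elements of `S` below `m` is not bounded by a power of `log m`. There is `θ > 0` such that for
every integer `μ ≠ 0`, every `B`, every `0 < η ≤ 1`, every large `m`, every `N` with `m ≤ N ≤ m ^ (1 + θ)` and EVERY integer
`c` with `|c| ≤ B N` the following holds: for all but at most `S(m) N ^ (-θ)` elements `v < m` of `S` the shift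
`h = c + μ v` is zero or satisfies, for ALL `x ≤ N`: `D_r(x; h) = ∑ G_h(log n, log(n + h)) + O(N ^ (1 - θ))` (the sum over
`n ≤ x` with `n + h ≥ 1`) and, if `|h| ≤ N ^ (1 - η)`, `D_r(x; h) = x T_h(log x) + O(N ^ (1 - θ) + N ^ (1 - η / 5))`, with
implied constants `1`. -/
theorem result (r : ℕ) (hr : 2 ≤ r) : ∃ (P : ℕ → ℝ[X]) (T : ℤ → ℝ[X]),
    (Density r P ∧ ∀ q, 1 ≤ q → (P q).natDegree = r - 1 ∧ (P q).leadingCoeff = κ (r - 1) q / ((r - 1).factorial : ℝ)) ∧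
    (∀ h : ℤ, h ≠ 0 → (∀ u v : ℝ, Summable (fun q : ℕ => (ram (q + 1) h : ℝ) * ((P (q + 1)).eval u * (P (q + 1)).eval v))) ∧
      (∀ u : ℝ, (T h).eval u + (derivative (T h)).eval u = G P h u u) ∧
      (T h).natDegree = 2 * r - 2 ∧ (T h).leadingCoeff = 𝔖 r h / ((r - 1).factorial : ℝ) ^ 2) ∧
    ∀ b : ℕ, 2 ≤ b → ∀ (σ : Type) [Fintype σ] (M : DFA ℕ σ),
      (∀ k : ℕ, ∃ᶠ m : ℕ in Filter.atTop, Real.log m ^ k < (num b M m (fun _ => True) : ℝ)) →
      ∃ θ : ℝ, 0 < θ ∧ ∀ μ : ℤ, μ ≠ 0 → ∀ (B : ℕ) (η : ℝ), 0 < η → η ≤ 1 →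
        ∃ m₀ : ℕ, ∀ m : ℕ, m₀ ≤ m → ∀ N : ℕ, m ≤ N → (N : ℝ) ≤ (m : ℝ) ^ (1 + θ) → ∀ c : ℤ, |c| ≤ B * N →
          (num b M m (fun v => c + μ * v ≠ 0 ∧ ¬ Asymp r N P T θ η (c + μ * v)) : ℝ) ≤
            num b M m (fun _ => True) * (N : ℝ) ^ (-θ) := by
  classical
  obtain ⟨P, T, h0, h1, ⟨θc, hθc, C', hcrit⟩, -, -⟩ := Pool.Agent.Results.MP_122e00_nt.SparseRandomShifts.result r hr
  refine ⟨P, T, ⟨h0.1, h0.2.1⟩, h1, fun b hb σ _ M hM => ?_⟩
  have hnum : ∀ m E, (num b M m E : ℝ) = (((range m).filter fun v : ℕ => Nat.digits b v ∈ M.accepts ∧ E v).card : ℝ) := by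
    intro m E
    unfold num
    congr!
  have hM' : ∀ k : ℕ, ∃ᶠ m : ℕ in Filter.atTop, Real.log m ^ k <
      (((range m).filter fun v => Nat.digits b v ∈ M.accepts).card : ℝ) := by
    intro k
    refine (hM k).mono fun m hm => ?_
    rw [hnum] at hm
    simpa only [and_true] using hm
  obtain ⟨B, δ, F, s0, κ', C, ρ, k, hB2, hρ, hG, hrun⟩ := Pool.Agent.W93.AU.setup b hb M hM'
  have hC1 := hG.C1
  have hC0 : 0 < C := by linarith
  have hBr : (2 : ℝ) ≤ B := by exact_mod_cast hB2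
  have hB0 : (0 : ℝ) < B := by linarith
  obtain ⟨θ1, hθ1, hθ11, hf1⟩ := Pool.Agent.R557.AD.few_aut B hB2 δ F s0 _ κ' C ρ k hG hρ (fun s hs => hs) θc hθc
  obtain ⟨θ₃, hθ₃⟩ : ∃ θ₃, θ₃ = min θc θ1 := ⟨_, rfl⟩
  have hθ₃0 : 0 < θ₃ := by rw [hθ₃]; exact lt_min hθc hθ1
  have hθ₃c : θ₃ ≤ θc := by rw [hθ₃]; exact min_le_left _ _
  have hθ₃1 : θ₃ ≤ θ1 := by rw [hθ₃]; exact min_le_right _ _
  refine ⟨θ₃ / 32, by positivity, fun μ hμ B₀ η hη hη1 => ?_⟩
  obtain ⟨k1, hk1⟩ := hf1 μ hμ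
  obtain ⟨N₀, hN₀⟩ := Pool.Agent.R501.SP.crit_pow r P T θc C' hcrit θ₃ hθ₃0 hθ₃c (B₀ + μ.natAbs) η hη hη1
  -- the constants are absorbed
  obtain ⟨N₁, hN₁⟩ : ∃ N₁ : ℕ, ∀ N : ℕ, N₁ ≤ N → (B : ℝ) ≤ (N : ℝ) ^ (θ₃ / 32) ∧ C ≤ (N : ℝ) ^ (θ₃ / 32) ∧
      (B : ℝ) ≤ (N : ℝ) ^ (η / 20) := by
    have e1 := (tendsto_rpow_atTop (show 0 < θ₃ / 32 by positivity)).comp tendsto_natCast_atTop_atTop
    have e2 := (tendsto_rpow_atTop (show 0 < η / 20 by positivity)).comp tendsto_natCast_atTop_atTop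
    obtain ⟨N₁, hN₁⟩ := Filter.eventually_atTop.1 (((e1.eventually_ge_atTop (B : ℝ)).and (e1.eventually_ge_atTop C)).and
      (e2.eventually_ge_atTop (B : ℝ)))
    exact ⟨N₁, fun N hN => ⟨(hN₁ N hN).1.1, (hN₁ N hN).1.2, (hN₁ N hN).2⟩⟩
  obtain ⟨k2, hk2⟩ := exists_nat_ge (2 / θ₃)
  refine ⟨B ^ (k1 + k2 + κ' + 1) + N₀ + N₁, fun m hm N hmN hNm c hc => ?_⟩
  have hpB : 0 < B ^ (k1 + k2 + κ' + 1) := by positivity
  obtain ⟨n, hn⟩ : ∃ n, n = Nat.log B m := ⟨_, rfl⟩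
  have hn1 : k1 + k2 + κ' + 1 ≤ n := by
    rw [hn]
    exact (Nat.le_log_iff_pow_le (by omega) (by omega)).2 (by omega)
  have hm1 : B ^ n ≤ m := by rw [hn]; exact Nat.pow_log_le_self B (by omega)
  have hm2 : m < B ^ (n + 1) := by rw [hn]; exact Nat.lt_pow_succ_log_self (by omega) m
  have hN1 : (1 : ℝ) ≤ N := by exact_mod_cast (by omega : 1 ≤ N)
  have hN0 : (0 : ℝ) < N := by linarith
  obtain ⟨N', hN'⟩ : ∃ N', N' = B * N := ⟨_, rfl⟩
  have hN'r : (N' : ℝ) = B * N := by rw [hN']; push_cast; ring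
  have hNN' : N ≤ N' := by rw [hN']; exact Nat.le_mul_of_pos_left N (by omega)
  have hNN'r : (N : ℝ) ≤ N' := by exact_mod_cast hNN'
  have hN'1 : (1 : ℝ) ≤ N' := hN1.trans hNN'r
  have hBn : B ^ (n + 1) ≤ N' := by
    rw [hN', pow_succ, mul_comm]
    exact Nat.mul_le_mul_left _ (hm1.trans hmN)
  obtain ⟨a1, a2, a3⟩ := hN₁ N (by omega)
  have hpos : 0 < Pool.Agent.W93.AU.Ac B δ F (n + 1) s0 := by
    have h1 := hG.low (n + 1) (by omega)
    have h2 : 0 < ρ ^ (n + 1) := by positivity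
    by_contra hcon
    push Not at hcon
    have h3 : C * Pool.Agent.W93.AU.Ac B δ F (n + 1) s0 ≤ 0 := mul_nonpos_of_nonneg_of_nonpos hC0.le hcon
    linarith
  have hup : (N' : ℝ) ≤ (B : ℝ) ^ ((1 + θ1) * ((n + 1 : ℕ) : ℝ)) := by
    have e1 : (m : ℝ) ≤ (B : ℝ) ^ ((n + 1 : ℕ) : ℝ) := by
      rw [Real.rpow_natCast]
      exact_mod_cast hm2.le
    have e2 : (N : ℝ) ≤ (B : ℝ) ^ (((n + 1 : ℕ) : ℝ) * (1 + θ₃ / 32)) := by
      rw [Real.rpow_mul hB0.le]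
      exact hNm.trans (Real.rpow_le_rpow (Nat.cast_nonneg _) e1 (by positivity))
    rw [hN'r]
    calc (B : ℝ) * N ≤ (B : ℝ) ^ (1 : ℝ) * (B : ℝ) ^ (((n + 1 : ℕ) : ℝ) * (1 + θ₃ / 32)) := by
          rw [Real.rpow_one]
          exact mul_le_mul_of_nonneg_left e2 hB0.le
      _ = (B : ℝ) ^ (1 + ((n + 1 : ℕ) : ℝ) * (1 + θ₃ / 32)) := by rw [← Real.rpow_add hB0]
      _ ≤ _ := by
          apply Real.rpow_le_rpow_of_exponent_le (by linarith)
          have e3 : (k2 : ℝ) ≤ ((n + 1 : ℕ) : ℝ) := by exact_mod_cast (by omega : k2 ≤ n + 1)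
          have e4 : 2 / θ₃ ≤ ((n + 1 : ℕ) : ℝ) := hk2.trans e3
          rw [div_le_iff₀ hθ₃0] at e4
          have e5 : ((n + 1 : ℕ) : ℝ) * θ₃ ≤ ((n + 1 : ℕ) : ℝ) * θ1 := mul_le_mul_of_nonneg_left hθ₃1 (Nat.cast_nonneg _)
          have e6 : ((n + 1 : ℕ) : ℝ) * (1 + θ₃ / 32) = ((n + 1 : ℕ) : ℝ) + ((n + 1 : ℕ) : ℝ) * θ₃ / 32 := by ring
          have e7 : (1 + θ1) * ((n + 1 : ℕ) : ℝ) = ((n + 1 : ℕ) : ℝ) + ((n + 1 : ℕ) : ℝ) * θ1 := by ring
          rw [e6, e7]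
          linarith
  have h3 := hk1 (n + 1) (by omega) N' hBn hup c
  have hfew := Pool.Agent.R501.SP.few_mono _ _ N' _ _ _ (Real.rpow_le_rpow_of_exponent_le hN'1 (by linarith : -θ1 ≤ -θ₃)) h3
  have key := hN₀ N' (by omega) {v // v ∈ Pool.Agent.R557.AD.Om B δ F s0 (n + 1)}
    (fun _ => 1 / Pool.Agent.W93.AU.Ac B δ F (n + 1) s0) (fun v => c + μ * (v.1 : ℕ)) (fun _ => by positivity)
    (Pool.Agent.R557.AD.sum_om B hB2 δ F s0 (n + 1) hpos) (by
      intro v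
      have h4 : v.1 < B ^ (n + 1) := by
        have := v.2
        unfold Pool.Agent.R557.AD.Om at this
        rw [mem_filter, mem_range] at this
        exact this.1
      have h6 : ((v.1 : ℕ) : ℤ) ≤ N' := by exact_mod_cast h4.le.trans hBn
      have h7 : (N : ℤ) ≤ N' := by exact_mod_cast hNN'
      calc |c + μ * (v.1 : ℕ)| ≤ |c| + |μ * (v.1 : ℕ)| := abs_add_le _ _
        _ = |c| + |μ| * (v.1 : ℕ) := by rw [abs_mul, abs_of_nonneg (Int.natCast_nonneg _)]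
        _ ≤ B₀ * N' + |μ| * N' := add_le_add (hc.trans (mul_le_mul_of_nonneg_left h7 (by positivity)))
            (mul_le_mul_of_nonneg_left h6 (abs_nonneg _))
        _ = _ := by push_cast; ring) hfew
  obtain ⟨E, hE⟩ : ∃ E : ℕ → Prop, E = fun v : ℕ => c + μ * v ≠ 0 ∧ ¬ Asymp r N P T (θ₃ / 32) η (c + μ * v) := ⟨_, rfl⟩
  rw [← hE]
  have htr := Pool.Agent.R557.AD.transfer b M B δ F s0 κ' C ρ k hB2 hG hrun m n (by omega) hm1 hm2 hpos E
  -- good for `N'` implies good for `N`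
  have hgood : ∀ h : ℤ, Pool.Agent.Results.MP_122e00_nt.SparseRandomShifts.Asymp r N' P T ((N' : ℝ) ^ (1 - θ₃ / 16)) η h →
      Asymp r N P T (θ₃ / 32) η h := by
    intro h hh x hx
    obtain ⟨g1, g2⟩ := hh x (hx.trans hNN')
    have hθs : θ₃ ≤ 1 := hθ₃1.trans hθ11
    have e1 : (N' : ℝ) ^ (1 - θ₃ / 16) ≤ (N : ℝ) ^ (1 - θ₃ / 32) := by
      rw [hN'r, Real.mul_rpow hB0.le hN0.le]
      calc (B : ℝ) ^ (1 - θ₃ / 16) * (N : ℝ) ^ (1 - θ₃ / 16) ≤ (B : ℝ) ^ (1 : ℝ) * (N : ℝ) ^ (1 - θ₃ / 16) := by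
            apply mul_le_mul_of_nonneg_right _ (by positivity)
            exact Real.rpow_le_rpow_of_exponent_le (by linarith) (by linarith)
        _ ≤ (N : ℝ) ^ (θ₃ / 32) * (N : ℝ) ^ (1 - θ₃ / 16) := by
            rw [Real.rpow_one]
            exact mul_le_mul_of_nonneg_right a1 (by positivity)
        _ = _ := by rw [← Real.rpow_add hN0]; congr 1; ring
    refine ⟨g1.trans e1, fun hb' => ?_⟩
    have e2 : (N' : ℝ) ^ (1 - η / 4) ≤ (N : ℝ) ^ (1 - η / 5) := by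
      rw [hN'r, Real.mul_rpow hB0.le hN0.le]
      calc (B : ℝ) ^ (1 - η / 4) * (N : ℝ) ^ (1 - η / 4) ≤ (B : ℝ) ^ (1 : ℝ) * (N : ℝ) ^ (1 - η / 4) := by
            apply mul_le_mul_of_nonneg_right _ (by positivity)
            exact Real.rpow_le_rpow_of_exponent_le (by linarith) (by linarith)
        _ ≤ (N : ℝ) ^ (η / 20) * (N : ℝ) ^ (1 - η / 4) := by
            rw [Real.rpow_one]
            exact mul_le_mul_of_nonneg_right a3 (by positivity)
        _ = _ := by rw [← Real.rpow_add hN0]; congr 1; ring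
    have e3 : (|h| : ℝ) ≤ (N' : ℝ) ^ (1 - η) := hb'.trans (Real.rpow_le_rpow hN0.le hNN'r (by linarith))
    exact (g2 e3).trans (by linarith)
  have hsum : ∑ _v ∈ (univ : Finset {v // v ∈ Pool.Agent.R557.AD.Om B δ F s0 (n + 1)}).filter (fun v => E v.1),
        1 / Pool.Agent.W93.AU.Ac B δ F (n + 1) s0 ≤ (N' : ℝ) ^ (-(θ₃ / 16)) := by
    refine le_trans ?_ key
    apply sum_le_sum_of_subset_of_nonneg
    · intro v hv
      rw [mem_filter, hE] at hv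
      rw [mem_filter]
      exact ⟨mem_univ _, hv.2.1, fun hg => hv.2.2 (hgood _ hg)⟩
    · intro v _ _
      positivity
  rw [hnum, hnum]
  have hXe : (((range m).filter fun v : ℕ => Nat.digits b v ∈ M.accepts ∧ True).card : ℝ) =
      (((range m).filter fun v => Nat.digits b v ∈ M.accepts).card : ℝ) := by
    congr 2
    apply filter_congr
    intro v _
    rw [and_true]
  have hX0 : (0 : ℝ) ≤ (((range m).filter fun v => Nat.digits b v ∈ M.accepts).card : ℝ) := by positivity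
  simp only [and_true]
  obtain ⟨X, hX⟩ : ∃ X : ℝ, X = (((range m).filter fun v => Nat.digits b v ∈ M.accepts).card : ℝ) := ⟨_, rfl⟩
  rw [← hX] at htr hX0 ⊢
  have e1 : C * (N' : ℝ) ^ (-(θ₃ / 16)) ≤ (N : ℝ) ^ (-(θ₃ / 32)) := by
    calc C * (N' : ℝ) ^ (-(θ₃ / 16)) ≤ (N : ℝ) ^ (θ₃ / 32) * (N : ℝ) ^ (-(θ₃ / 16)) := by
          apply mul_le_mul a2 _ (by positivity) (by positivity)
          exact Real.rpow_le_rpow_of_nonpos hN0 hNN'r (by linarith)
      _ = _ := by rw [← Real.rpow_add hN0]; congr 1; ring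
  refine htr.trans ?_
  refine (mul_le_mul_of_nonneg_left hsum (mul_nonneg hC0.le hX0)).trans ?_
  calc C * X * (N' : ℝ) ^ (-(θ₃ / 16)) = X * (C * (N' : ℝ) ^ (-(θ₃ / 16))) := by ring
    _ ≤ _ := mul_le_mul_of_nonneg_left e1 hX0

end Pool.Agent.Results.MP_122e00_nt.AutomaticShifts
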