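import Pool.Agent.R501.SP5

/-!
# Correlations of the divisor functions with a power saving, for almost all shifts which arise by a rearrangement of the
digits of an integer

Definitions used: from the starting file `Pool.Agent.Results.MP_122e00_nt.PowerSavingShifts`: the divisor functions `d`,
the sums `D`, the Ramanujan sums `ram`, the densities `κ`, the singular series `𝔖`, `Density`, `G`, `main`. From the
starting file `Pool.Agent.TH872.An1` (namespace `Pool.Agent.TH872.An`): `Spread b k ν d`: the integers `d i` (`i < k`) are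
digits in base `b`, and no digit is taken at more than `(1 - ν) k` of the `k` places; `V b d σ`: the integer with the
permuted digits, thus the integer with the digit `d (σ i)` at the place `i`, in base `b`.
-/

set_option autoImplicit false

namespace Pool.Agent.Results.MP_122e00_nt.DigitPermutationShifts

open Finset Polynomial Pool.Agent.TH872.An
open Pool.Agent.Results.MP_122e00_nt.PowerSavingShifts (D ram κ 𝔖 Density G main)

/-- For ALL `x ≤ N`: `D_r(x; h)` is the main term up to `N ^ (1 - θ)` and, if `|h| ≤ N ^ (1 - η)`, it is `x T_h(log x)` up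
to `N ^ (1 - θ) + N ^ (1 - η / 4)`. -/
def Asymp (r N : ℕ) (P : ℕ → ℝ[X]) (T : ℤ → ℝ[X]) (θ η : ℝ) (h : ℤ) : Prop := ∀ x : ℕ, x ≤ N →
  |D r x h - main P x h| ≤ (N : ℝ) ^ (1 - θ) ∧
    ((|h| : ℝ) ≤ (N : ℝ) ^ (1 - η) → |D r x h - x * (T h).eval (Real.log x)| ≤ (N : ℝ) ^ (1 - θ) + (N : ℝ) ^ (1 - η / 4))

open Classical in
/-- **Divisor correlations with a power saving for almost all rearrangements of the digits.** Let `r ≥ 2`. There are
polynomials `P_q` (`q ≥ 1`) and `T_h` (`h ≠ 0`) with the following properties.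

(0) As in the starting files: `P_q` is the density of `d_r(n) e(b n / q)`, `(b, q) = 1`, with a power saving; for `h ≠ 0` the
series `G_h(u, v) = ∑ c_q(h) P_q(u) P_q(v)` satisfies `T_h(u) + T_h'(u) = G_h(u, u)`, and `T_h` has degree `2 r - 2` and
leading coefficient `𝔖_r(h) / ((r - 1)!) ^ 2`.

(1) For `b ≥ 2` and `ν > 0` there is `θ > 0` such that for every integer `μ ≠ 0`, every `B`, every `0 < η ≤ 1`, every large
`k`, every `N` with `b ^ k ≤ N ≤ b ^ ((1 + θ) k)` and EVERY integer `c` with `|c| ≤ B N` the following holds. Let `d` be an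
arbitrary sequence of `k` digits in base `b` none of which is taken at more than `(1 - ν) k` places. Then for all the
permutations `σ` of the `k` places, with at most `k! N ^ (-θ)` exceptions, the shift `h = c + μ v_σ`, where `v_σ` has the
permuted digits, is zero or satisfies, for ALL `x ≤ N`: `D_r(x; h) = ∑ G_h(log n, log(n + h)) + O(N ^ (1 - θ))` (the sum
over `n ≤ x` with `n + h ≥ 1`) and, if `|h| ≤ N ^ (1 - η)`, `D_r(x; h) = x T_h(log x) + O(N ^ (1 - θ) + N ^ (1 - η / 4))`,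
with implied constants `1`. -/
theorem result (r : ℕ) (hr : 2 ≤ r) : ∃ (P : ℕ → ℝ[X]) (T : ℤ → ℝ[X]),
    (Density r P ∧ ∀ q, 1 ≤ q → (P q).natDegree = r - 1 ∧ (P q).leadingCoeff = κ (r - 1) q / ((r - 1).factorial : ℝ)) ∧
    (∀ h : ℤ, h ≠ 0 → (∀ u v : ℝ, Summable (fun q : ℕ => (ram (q + 1) h : ℝ) * ((P (q + 1)).eval u * (P (q + 1)).eval v))) ∧
      (∀ u : ℝ, (T h).eval u + (derivative (T h)).eval u = G P h u u) ∧
      (T h).natDegree = 2 * r - 2 ∧ (T h).leadingCoeff = 𝔖 r h / ((r - 1).factorial : ℝ) ^ 2) ∧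
    ∀ b : ℕ, 2 ≤ b → ∀ ν : ℝ, 0 < ν → ∃ θ : ℝ, 0 < θ ∧ ∀ μ : ℤ, μ ≠ 0 → ∀ (B : ℕ) (η : ℝ), 0 < η → η ≤ 1 →
      ∃ k₀ : ℕ, ∀ k : ℕ, k₀ ≤ k → ∀ N : ℕ, b ^ k ≤ N → (N : ℝ) ≤ (b : ℝ) ^ ((1 + θ) * k) → ∀ c : ℤ, |c| ≤ B * N →
        ∀ d : Fin k → ℕ, Spread b k ν d →
          ((univ.filter (fun σ : Equiv.Perm (Fin k) => c + μ * V b d σ ≠ 0 ∧ ¬ Asymp r N P T θ η (c + μ * V b d σ))).card : ℝ) ≤
            k.factorial * (N : ℝ) ^ (-θ) := by
  obtain ⟨P, T, h0, h1, ⟨θc, hθc, C, hcrit⟩, -, -⟩ := Pool.Agent.Results.MP_122e00_nt.SparseRandomShifts.result r hr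
  refine ⟨P, T, ⟨h0.1, h0.2.1⟩, h1, fun b hb ν hν => ?_⟩
  have hb0 : (0 : ℝ) < b := by exact_mod_cast (by omega : 0 < b)
  obtain ⟨θ1, hθ1, hθ11, hf1⟩ := Pool.Agent.R501.SP.few_perm b hb ν hν θc hθc
  obtain ⟨θ₃, hθ₃⟩ : ∃ θ₃, θ₃ = min θc θ1 := ⟨_, rfl⟩
  have hθ₃0 : 0 < θ₃ := by rw [hθ₃]; exact lt_min hθc hθ1
  have hθ₃c : θ₃ ≤ θc := by rw [hθ₃]; exact min_le_left _ _
  have hθ₃1 : θ₃ ≤ θ1 := by rw [hθ₃]; exact min_le_right _ _
  refine ⟨θ₃ / 16, by positivity, fun μ hμ B η hη hη1 => ?_⟩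
  obtain ⟨k1, hk1⟩ := hf1 μ hμ
  obtain ⟨N₀, hN₀⟩ := Pool.Agent.R501.SP.crit_pow r P T θc C hcrit θ₃ hθ₃0 hθ₃c (B + μ.natAbs) η hη hη1
  refine ⟨k1 + N₀ + 4, fun k hk N hN1 hN2 c hc d hd => ?_⟩
  have hbr : (1 : ℝ) ≤ b := by exact_mod_cast (by omega : 1 ≤ b)
  have hkN : k ≤ N := (Nat.lt_pow_self (by omega)).le.trans hN1
  have hNr : (1 : ℝ) ≤ N := by exact_mod_cast (by omega : 1 ≤ N)
  have hfac : (0 : ℝ) < (k.factorial : ℝ) := by exact_mod_cast k.factorial_pos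
  have h3 := hk1 k (by omega) N hN1 (by
    refine hN2.trans (Real.rpow_le_rpow_of_exponent_le hbr ?_)
    apply mul_le_mul_of_nonneg_right _ (Nat.cast_nonneg _)
    linarith) d hd c
  have hfew := Pool.Agent.R501.SP.few_mono _ _ N _ _ _ (Real.rpow_le_rpow_of_exponent_le hNr (by linarith : -θ1 ≤ -θ₃)) h3
  have key := hN₀ N (by omega) (Equiv.Perm (Fin k)) (fun _ => 1 / (k.factorial : ℝ)) (fun σ => c + μ * (V b d σ : ℕ))
    (fun _ => by positivity) (by
      rw [sum_const, card_univ, Fintype.card_perm, Fintype.card_fin, nsmul_eq_mul, mul_one_div, div_self hfac.ne']) (by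
      intro σ
      have h4 := V_lt hd (by omega) σ
      have h6 : ((V b d σ : ℕ) : ℤ) ≤ N := by exact_mod_cast h4.le.trans hN1
      calc |c + μ * (V b d σ : ℕ)| ≤ |c| + |μ * (V b d σ : ℕ)| := abs_add_le _ _
        _ = |c| + |μ| * (V b d σ : ℕ) := by rw [abs_mul, abs_of_nonneg (Int.natCast_nonneg _)]
        _ ≤ B * N + |μ| * N := add_le_add hc (mul_le_mul_of_nonneg_left h6 (abs_nonneg _))
        _ = _ := by push_cast; ring) hfew
  rw [sum_const, nsmul_eq_mul, mul_one_div, div_le_iff₀ hfac] at key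
  refine (le_of_eq ?_).trans (key.trans (le_of_eq (mul_comm _ _)))
  rfl

end Pool.Agent.Results.MP_122e00_nt.DigitPermutationShifts
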