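import Pool.Agent.R501.SP3

/-!
# Correlations of the divisor functions with a power saving, for almost all palindromic shifts, and for shifts with
mirror-dependent digits

Definitions used: from the starting file `Pool.Agent.Results.MP_122e00_nt.PowerSavingShifts`: the divisor functions `d`,
the sums `D`, the Ramanujan sums `ram`, the densities `κ`, the singular series `𝔖`, `Density`, `G`, `main`. From the
starting file `Pool.Agent.TH872.Transfer` (namespace `Pool.Agent.TH872.Tr`): `num b k E`: the number of the palindromes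
with exactly `k` digits in base `b` which have the property `E`; `value b k μ c d z`: the integer `c + μ v`, where `v` has
the pair of digits `d i` at the positions `i` and `k - 1 - i`, for `i < k / 2`, and, if `k` is odd, the middle digit `z`;
`Prob b k w u E`: the probability of the event `E` if the pairs `d i` and the digit `z` are chosen independently of each
other with the distributions `w i` and `u`; `Pairs b k ν w`: the `w i` are distributions of pairs of digits, and two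
independent copies of the pair number `i` (`i ≥ 1`) differ in both digits with a probability of at least `ν`.
-/

set_option autoImplicit false

namespace Pool.Agent.Results.MP_122e00_nt.PalindromicShifts

open Finset Polynomial Pool.Agent.TH872.Tr
open Pool.Agent.Results.MP_122e00_nt.PowerSavingShifts (D ram κ 𝔖 Density G main)

/-- For ALL `x ≤ N`: `D_r(x; h)` is the main term up to `N ^ (1 - θ)` and, if `|h| ≤ N ^ (1 - η)`, it is `x T_h(log x)` up
to `N ^ (1 - θ) + N ^ (1 - η / 4)`. -/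
def Asymp (r N : ℕ) (P : ℕ → ℝ[X]) (T : ℤ → ℝ[X]) (θ η : ℝ) (h : ℤ) : Prop := ∀ x : ℕ, x ≤ N →
  |D r x h - main P x h| ≤ (N : ℝ) ^ (1 - θ) ∧
    ((|h| : ℝ) ≤ (N : ℝ) ^ (1 - η) → |D r x h - x * (T h).eval (Real.log x)| ≤ (N : ℝ) ^ (1 - θ) + (N : ℝ) ^ (1 - η / 4))

/-- **Divisor correlations with a power saving for almost all palindromic shifts.** Let `r ≥ 2`. There are polynomials
`P_q` (`q ≥ 1`) and `T_h` (`h ≠ 0`) with the following properties.

(0) As in the starting files: `P_q` is the density of `d_r(n) e(b n / q)`, `(b, q) = 1`, with a power saving; for `h ≠ 0` the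
series `G_h(u, v) = ∑ c_q(h) P_q(u) P_q(v)` satisfies `T_h(u) + T_h'(u) = G_h(u, u)`, and `T_h` has degree `2 r - 2` and
leading coefficient `𝔖_r(h) / ((r - 1)!) ^ 2`.

(1) For `b ≥ 2` and `ν > 0` there is `θ > 0` such that for every integer `μ ≠ 0`, every `B`, every `0 < η ≤ 1`, every large
`k`, every `N` with `b ^ k ≤ N ≤ b ^ ((1 + θ) k)` and EVERY integer `c` with `|c| ≤ B N` the following holds. Let `v` be a
random integer with `k` digits in base `b`, such that the pairs formed by the digits at the positions `i` and `k - 1 - i`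
are independent of each other for different `i`. Inside of a pair the digits may depend on each other in an arbitrary
way; the distributions of the pairs are arbitrary (and depend on the position and on `k`), only two independent copies
of a pair (with `i ≥ 1`) should differ in both digits with a probability of at least `ν`. Then, with a probability of at
least `1 - N ^ (-θ)`, the shift `h = c + μ v` is zero or satisfies, for ALL `x ≤ N`:
`D_r(x; h) = ∑ G_h(log n, log(n + h)) + O(N ^ (1 - θ))` (the sum over `n ≤ x` with `n + h ≥ 1`) and, if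
`|h| ≤ N ^ (1 - η)`, `D_r(x; h) = x T_h(log x) + O(N ^ (1 - θ) + N ^ (1 - η / 4))`, with implied constants `1`.

(2) In particular the same holds for the shifts `h = c + μ v` with all the palindromes `v` with exactly `k` digits in
base `b`, up to a proportion of at most `N ^ (-θ)` of them. -/
theorem result (r : ℕ) (hr : 2 ≤ r) : ∃ (P : ℕ → ℝ[X]) (T : ℤ → ℝ[X]),
    (Density r P ∧ ∀ q, 1 ≤ q → (P q).natDegree = r - 1 ∧ (P q).leadingCoeff = κ (r - 1) q / ((r - 1).factorial : ℝ)) ∧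
    (∀ h : ℤ, h ≠ 0 → (∀ u v : ℝ, Summable (fun q : ℕ => (ram (q + 1) h : ℝ) * ((P (q + 1)).eval u * (P (q + 1)).eval v))) ∧
      (∀ u : ℝ, (T h).eval u + (derivative (T h)).eval u = G P h u u) ∧
      (T h).natDegree = 2 * r - 2 ∧ (T h).leadingCoeff = 𝔖 r h / ((r - 1).factorial : ℝ) ^ 2) ∧
    ∀ b : ℕ, 2 ≤ b → ∀ ν : ℝ, 0 < ν → ∃ θ : ℝ, 0 < θ ∧ ∀ μ : ℤ, μ ≠ 0 → ∀ (B : ℕ) (η : ℝ), 0 < η → η ≤ 1 →
      ∃ k₀ : ℕ, ∀ k : ℕ, k₀ ≤ k → ∀ N : ℕ, b ^ k ≤ N → (N : ℝ) ≤ (b : ℝ) ^ ((1 + θ) * k) → ∀ c : ℤ, |c| ≤ B * N →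
        (∀ (w : ℕ → ℕ × ℕ → ℝ) (u : ℕ → ℝ), Pairs b k ν w → (∀ a, 0 ≤ u a) → ∑ a ∈ range b, u a = 1 →
          Prob b k w u (fun d z => value b k μ c d z ≠ 0 ∧ ¬ Asymp r N P T θ η (value b k μ c d z)) ≤ (N : ℝ) ^ (-θ)) ∧
        (num b k (fun v => c + μ * v ≠ 0 ∧ ¬ Asymp r N P T θ η (c + μ * v)) : ℝ) ≤
          num b k (fun _ => True) * (N : ℝ) ^ (-θ) := by
  classical
  obtain ⟨P, T, h0, h1, ⟨θc, hθc, C, hcrit⟩, -, -⟩ := Pool.Agent.Results.MP_122e00_nt.SparseRandomShifts.result r hr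
  refine ⟨P, T, ⟨h0.1, h0.2.1⟩, h1, fun b hb ν hν => ?_⟩
  have hb0 : (0 : ℝ) < b := by exact_mod_cast (by omega : 0 < b)
  obtain ⟨θ1, hθ1, hθ11, hf1⟩ := Pool.Agent.R501.SP.few_mir b hb ν hν θc hθc
  obtain ⟨θ2, hθ2, hθ21, hf2⟩ := Pool.Agent.R501.SP.few_mir b hb (1 / (b : ℝ) ^ 2) (by positivity) θc hθc
  obtain ⟨θ₃, hθ₃⟩ : ∃ θ₃, θ₃ = min θc (min θ1 θ2) := ⟨_, rfl⟩
  have hθ₃0 : 0 < θ₃ := by rw [hθ₃]; exact lt_min hθc (lt_min hθ1 hθ2)
  have hθ₃c : θ₃ ≤ θc := by rw [hθ₃]; exact min_le_left _ _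
  have hθ₃1 : θ₃ ≤ θ1 := by rw [hθ₃]; exact (min_le_right _ _).trans (min_le_left _ _)
  have hθ₃2 : θ₃ ≤ θ2 := by rw [hθ₃]; exact (min_le_right _ _).trans (min_le_right _ _)
  refine ⟨θ₃ / 16, by positivity, fun μ hμ B η hη hη1 => ?_⟩
  obtain ⟨k1, hk1⟩ := hf1 μ hμ
  obtain ⟨k2, hk2⟩ := hf2 μ hμ
  obtain ⟨N₀, hN₀⟩ := Pool.Agent.R501.SP.crit_pow r P T θc C hcrit θ₃ hθ₃0 hθ₃c (B + 3 * μ.natAbs) η hη hη1
  refine ⟨k1 + k2 + N₀ + 4, fun k hk N hN1 hN2 c hc => ?_⟩
  have hbr : (1 : ℝ) ≤ b := by exact_mod_cast (by omega : 1 ≤ b)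
  have hkN : k ≤ N := (Nat.lt_pow_self (by omega)).le.trans hN1
  have hkms : 2 * (k / 2) + k % 2 = k := Nat.div_add_mod k 2
  refine Pool.Agent.R501.SP.transfer' b k hb (by omega) μ c (fun h => h ≠ 0 ∧ ¬ Asymp r N P T (θ₃ / 16) η h) ((N : ℝ) ^ (-(θ₃ / 16)))
    (by positivity) ν (fun η' hη' w hw cc hcc E _ hE => ?_)
  have hfew : Pool.Agent.Results.MP_122e00_nt.SparseRandomShifts.FewLarge (ι := {g // g ∈ Pool.Agent.TH872.Mir.Gs b (k / 2)})
      (fun g => Pool.Agent.TH872.Mir.pw w g.1) (fun g => cc + μ * (Pool.Agent.TH872.Mir.val b k g.1 : ℕ)) N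
      ((N : ℝ) ^ (-θ₃)) ((N : ℝ) ^ θc) := by
    have hNr : (1 : ℝ) ≤ N := by exact_mod_cast (by omega : 1 ≤ N)
    rcases hη' with rfl | rfl
    · have h3 := hk1 (k / 2) (k % 2) (by omega) (by omega) N (by rw [hkms]; exact hN1) (by
        rw [hkms]
        refine hN2.trans (Real.rpow_le_rpow_of_exponent_le hbr ?_)
        apply mul_le_mul_of_nonneg_right _ (Nat.cast_nonneg _)
        linarith) w hw cc
      rw [hkms] at h3
      exact Pool.Agent.R501.SP.few_mono _ _ N _ _ _ (Real.rpow_le_rpow_of_exponent_le hNr (by linarith)) h3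
    · have h3 := hk2 (k / 2) (k % 2) (by omega) (by omega) N (by rw [hkms]; exact hN1) (by
        rw [hkms]
        refine hN2.trans (Real.rpow_le_rpow_of_exponent_le hbr ?_)
        apply mul_le_mul_of_nonneg_right _ (Nat.cast_nonneg _)
        linarith) w hw cc
      rw [hkms] at h3
      exact Pool.Agent.R501.SP.few_mono _ _ N _ _ _ (Real.rpow_le_rpow_of_exponent_le hNr (by linarith)) h3
  have hpos : ∀ g : {g // g ∈ Pool.Agent.TH872.Mir.Gs b (k / 2)}, 0 ≤ Pool.Agent.TH872.Mir.pw w g.1 := fun g =>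
    Pool.Agent.TH872.Mir.pw_nonneg hw g.1
  have key := hN₀ N (by omega) {g // g ∈ Pool.Agent.TH872.Mir.Gs b (k / 2)} (fun g => Pool.Agent.TH872.Mir.pw w g.1)
    (fun g => cc + μ * (Pool.Agent.TH872.Mir.val b k g.1 : ℕ)) hpos (by
      rw [Finset.sum_coe_sort (Pool.Agent.TH872.Mir.Gs b (k / 2)) (fun g => Pool.Agent.TH872.Mir.pw w g)]
      exact Pool.Agent.TH872.Mir.pw_sum hw) (by
      intro g
      have h4 : Pool.Agent.TH872.Mir.val b k g.1 < 2 * b ^ k := by
        have := Pool.Agent.TH872.Mir.val_lt b (k / 2) (k % 2) (by omega) g.1 g.2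
        rwa [hkms] at this
      have h5 : (b : ℤ) ^ k ≤ N := by exact_mod_cast hN1
      have h6 : ((Pool.Agent.TH872.Mir.val b k g.1 : ℕ) : ℤ) ≤ 2 * N := by
        have : ((Pool.Agent.TH872.Mir.val b k g.1 : ℕ) : ℤ) < 2 * (b : ℤ) ^ k := by exact_mod_cast h4
        linarith
      have h7 : |cc| ≤ |c| + |μ| * N := by
        have h8 : |cc| ≤ |c| + |cc - c| := by
          have := abs_add_le c (cc - c)
          rwa [add_sub_cancel] at this
        have h9 := mul_le_mul_of_nonneg_left h5 (abs_nonneg μ)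
        linarith
      calc |cc + μ * (Pool.Agent.TH872.Mir.val b k g.1 : ℕ)| ≤ |cc| + |μ * (Pool.Agent.TH872.Mir.val b k g.1 : ℕ)| := abs_add_le _ _
        _ = |cc| + |μ| * (Pool.Agent.TH872.Mir.val b k g.1 : ℕ) := by rw [abs_mul, abs_of_nonneg (Int.natCast_nonneg _)]
        _ ≤ (|c| + |μ| * N) + |μ| * (2 * N) := add_le_add h7 (mul_le_mul_of_nonneg_left h6 (abs_nonneg _))
        _ ≤ B * N + |μ| * N + |μ| * (2 * N) := by linarith
        _ = _ := by push_cast; ring) hfew
  refine le_trans ?_ key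
  rw [sum_filter, ← Finset.sum_coe_sort (Pool.Agent.TH872.Mir.Gs b (k / 2)) (fun g => if E g then Pool.Agent.TH872.Mir.pw w g else 0)]
  apply sum_le_sum
  intro g _
  by_cases hEg : E g.1
  · rw [if_pos hEg, if_pos]
    obtain ⟨g1, g2⟩ := hE g.1 g.2 hEg
    exact ⟨g1, fun hh => g2 hh⟩
  · rw [if_neg hEg]
    split_ifs
    · exact hpos g
    · exact le_rfl

end Pool.Agent.Results.MP_122e00_nt.PalindromicShifts
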