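import Pool.Agent.R501.SP4

/-!
# Correlations of the divisor functions for sums of independent integers: savings in terms of the amount of randomness

The definitions of `D`, `main`, `G`, `ram`, `κ`, `𝔖`, `Density` are those of the starting file
`Pool.Agent.Results.MP_122e00_nt.PowerSavingShifts`.
-/

set_option autoImplicit false

namespace Pool.Agent.Results.MP_122e00_nt.SavingsForRandomShifts

open Finset Polynomial
open Pool.Agent.Results.MP_122e00_nt.PowerSavingShifts (D ram κ 𝔖 Density G main)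

/-- For ALL `x ≤ N`: `D_r(x; h)` is the main term up to `N ^ (1 - s)` and, if `|h| ≤ N ^ (1 - η)`, it is `x T_h(log x)` up
to `N ^ (1 - s) + N ^ (1 - η / 4)`. -/
def Asymp (r N : ℕ) (P : ℕ → ℝ[X]) (T : ℤ → ℝ[X]) (s η : ℝ) (h : ℤ) : Prop := ∀ x : ℕ, x ≤ N →
  |D r x h - main P x h| ≤ (N : ℝ) ^ (1 - s) ∧
    ((|h| : ℝ) ≤ (N : ℝ) ^ (1 - η) → |D r x h - x * (T h).eval (Real.log x)| ≤ (N : ℝ) ^ (1 - s) + (N : ℝ) ^ (1 - η / 4))

/-- `x_0, …, x_{K - 1}` are independent random integers: `x_i` takes the value `x i k` with the probability `p i k`, `k < m`.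
For every scale `τ_j`, `j ≤ J` (`1 ≤ τ_0`, `B τ_j < τ_{j + 1}`), the sum over `i` of the probabilities that two independent
copies of `x_i` differ by an amount in `[τ_j, B τ_j]` is at least `μ`. -/
structure Spread (K m J : ℕ) (p : Fin K → Fin m → ℝ) (x : Fin K → Fin m → ℤ) (τ : ℕ → ℝ) (B μ : ℝ) : Prop where
  nonneg : ∀ i k, 0 ≤ p i k
  one : ∀ i, ∑ k, p i k = 1
  first : 1 ≤ τ 0
  sep : ∀ j, j < J → B * τ j < τ (j + 1)
  spread : ∀ j, j ≤ J → μ ≤ ∑ i, ∑ k, ∑ l,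
    if τ j ≤ |((x i k - x i l : ℤ) : ℝ)| ∧ |((x i k - x i l : ℤ) : ℝ)| ≤ B * τ j then p i k * p i l else 0

open Classical in
/-- **Divisor correlations for sums of independent integers, with savings in terms of the randomness.** Let `r ≥ 2`. There
are polynomials `P_q` (`q ≥ 1`) and `T_h` (`h ≠ 0`) with the following properties.

(0) As in the starting files: `P_q` is the density of `d_r(n) e(b n / q)`, `(b, q) = 1`, with a power saving; for `h ≠ 0` the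
series `G_h(u, v) = ∑ c_q(h) P_q(u) P_q(v)` satisfies `T_h(u) + T_h'(u) = G_h(u, u)`, and `T_h` has degree `2 r - 2` and
leading coefficient `𝔖_r(h) / ((r - 1)!) ^ 2`.

(1) (Sums of independent integers.) There is `θ > 0` such that for all `B ≥ 2` there are `a > 0` and `C` such that for all
`B₂`, `0 < η ≤ 1` and all large `N`: let `h = c + x_0 + ⋯ + x_{K - 1}`, `x_i` independent, `Spread` with `μ` at the scales
`τ_0, …, τ_J ≤ N`, `|h| ≤ B₂ N`, `g ≥ 1`, `C g ^ 2 (1 + log g) log log N ≤ μ log N`, and let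
`τ_0 · (N / τ_J) · ∏ (τ_{j + 1} / (g τ_j)) ≤ N ^ θ`, the product over the `j` with `τ_{j + 1} > g τ_j`. Put
`s = min (a, a μ / (g ^ 2 (1 + log g)))`. Then with probability at least `1 - N ^ (-s)` (or `h = 0`) the formula
`D_r(x; h) = ∑ G_h(log n, log(n + h)) + O(N ^ (1 - s))` holds for ALL `x ≤ N`, and also
`D_r(x; h) = x T_h(log x) + O(N ^ (1 - s) + N ^ (1 - η / 4))` if `|h| ≤ N ^ (1 - η)`.

So there is a power saving if `μ` and `g` are fixed. The saving `N ^ s` is at least `(log N) ^ U` as soon as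
`C_U g ^ 2 (1 + log g) log log N ≤ μ log N`: this is the condition of the starting theorem.

(2) (Subset sums.) There are `θ, a > 0` and `C` such that for all `B`, `0 < η ≤ 1` and all large `N`: if
`s_0, …, s_J ≤ N` are positive integers with `2 s_j < s_{j + 1} ≤ g s_j`, `C g ^ 2 (1 + log g) log log N ≤ log N`,
`s_0 ≤ N ^ θ s_J / N`, and `|c| ≤ B N`, then, with `s = a / (g ^ 2 (1 + log g))`, all but `2 ^ (J + 1) N ^ (-s)` of the
`2 ^ (J + 1)` subset sums `h = c + ∑_{j ∈ I} s_j` (or `h = 0`) satisfy these formulas for ALL `x ≤ N`. -/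
theorem result (r : ℕ) (hr : 2 ≤ r) : ∃ (P : ℕ → ℝ[X]) (T : ℤ → ℝ[X]),
    (Density r P ∧ ∀ q, 1 ≤ q → (P q).natDegree = r - 1 ∧ (P q).leadingCoeff = κ (r - 1) q / ((r - 1).factorial : ℝ)) ∧
    (∀ h : ℤ, h ≠ 0 → (∀ u v : ℝ, Summable (fun q : ℕ => (ram (q + 1) h : ℝ) * ((P (q + 1)).eval u * (P (q + 1)).eval v))) ∧
      (∀ u : ℝ, (T h).eval u + (derivative (T h)).eval u = G P h u u) ∧
      (T h).natDegree = 2 * r - 2 ∧ (T h).leadingCoeff = 𝔖 r h / ((r - 1).factorial : ℝ) ^ 2) ∧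
    (∃ θ : ℝ, 0 < θ ∧ ∀ B : ℕ, 2 ≤ B → ∃ a C : ℝ, 0 < a ∧ 0 < C ∧ ∀ (B₂ : ℕ) (η : ℝ), 0 < η → η ≤ 1 → ∃ N₀ : ℕ, ∀ N : ℕ, N₀ ≤ N →
      ∀ (K m J : ℕ) (p : Fin K → Fin m → ℝ) (x : Fin K → Fin m → ℤ) (c : ℤ) (τ : ℕ → ℝ) (g μ : ℝ),
      Spread K m J p x τ B μ → τ J ≤ N → (∀ ω : Fin K → Fin m, |c + ∑ i, x i (ω i)| ≤ B₂ * N) → 1 ≤ g →
      C * g ^ 2 * (1 + Real.log g) * Real.log (Real.log N) ≤ μ * Real.log N →
      τ 0 * ((N : ℝ) / τ J) * ∏ j ∈ (range J).filter (fun j => g < τ (j + 1) / τ j), (τ (j + 1) / τ j / g) ≤ (N : ℝ) ^ θ →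
      ∀ s : ℝ, s = min a (a * μ / (g ^ 2 * (1 + Real.log g))) →
      ∑ ω ∈ univ.filter (fun ω : Fin K → Fin m => c + ∑ i, x i (ω i) ≠ 0 ∧
        ¬ Asymp r N P T s η (c + ∑ i, x i (ω i))), ∏ i, p i (ω i) ≤ (N : ℝ) ^ (-s)) ∧
    (∃ θ a C : ℝ, 0 < θ ∧ 0 < a ∧ 0 < C ∧ ∀ (B : ℕ) (η : ℝ), 0 < η → η ≤ 1 → ∃ N₀ : ℕ, ∀ N : ℕ, N₀ ≤ N →
      ∀ (J : ℕ) (t : ℕ → ℕ) (c : ℤ) (g : ℝ), 1 ≤ t 0 → (∀ j, j < J → 2 * t j < t (j + 1) ∧ (t (j + 1) : ℝ) ≤ g * t j) →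
      t J ≤ N → |c| ≤ B * N → 1 ≤ g → C * g ^ 2 * (1 + Real.log g) * Real.log (Real.log N) ≤ Real.log N →
      (t 0 : ℝ) * ((N : ℝ) / t J) ≤ (N : ℝ) ^ θ → ∀ s : ℝ, s = a / (g ^ 2 * (1 + Real.log g)) →
      ((univ.filter (fun I : Finset (Fin (J + 1)) => c + ∑ j ∈ I, (t j : ℤ) ≠ 0 ∧
        ¬ Asymp r N P T s η (c + ∑ j ∈ I, (t j : ℤ)))).card : ℝ) ≤ 2 ^ (J + 1) * (N : ℝ) ^ (-s)) := by
  obtain ⟨P, T, h0, h1, ⟨θc, hθc, C, hcrit⟩, -, -⟩ := Pool.Agent.Results.MP_122e00_nt.SparseRandomShifts.result r hr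
  refine ⟨P, T, ⟨h0.1, h0.2.1⟩, h1, ?_, ?_⟩
  · obtain ⟨θ, hθ, h2⟩ := Pool.Agent.R501.SP.ind_pow r P T θc hθc C hcrit
    refine ⟨θ, hθ, fun B hB => ?_⟩
    obtain ⟨a, C₂, ha, hC₂, h3⟩ := h2 B hB
    refine ⟨a, C₂, ha, hC₂, fun B₂ η hη hη1 => ?_⟩
    obtain ⟨N₀, h4⟩ := h3 B₂ η hη hη1
    refine ⟨N₀, fun N hN K m J p x c τ g μ hs hτ hb hg hC hp s hs' => ?_⟩
    rw [hs']
    exact h4 N hN K m J p x c τ g μ ⟨hs.nonneg, hs.one, hs.first, hs.sep, hs.spread⟩ hτ hb hg hC hp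
  · obtain ⟨θ, hθ, a, C₂, ha, hC₂, h3⟩ := Pool.Agent.R501.SP.sub_pow r P T θc hθc C hcrit
    refine ⟨θ, a, C₂, hθ, ha, hC₂, fun B η hη hη1 => ?_⟩
    obtain ⟨N₀, h4⟩ := h3 B η hη hη1
    refine ⟨N₀, fun N hN J t c g ht0 ht htJ hc hg hC hp s hs' => ?_⟩
    rw [hs']
    exact h4 N hN J t c g ht0 ht htJ hc hg hC hp

end Pool.Agent.Results.MP_122e00_nt.SavingsForRandomShifts
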